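import Pool.Agent.V1198.Cone.Basic

/-!
# A normal cone and an increasing sequence with minimal upper bounds but no supremum

The space is `c₀ × ℝ³` with the cone of all `(a, z)` with `|z₁| ≤ 2 aₙ + z₃` and `|z₂| ≤ aₙ + z₃`
for all `n`, and the sequence is `((1, …, 1, 0, …), 0)`. Both `(0, (0, 1, 2))` and
`(0, (0, -1, 2))` are minimal upper bounds.
-/

set_option autoImplicit false

namespace Pool.Agent.Results.MP_c65f17_an.MinimalUpper

open Filter Topology Set Pool.Agent.V1198.Cone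

theorem isMinUpper_ub {σ : ℝ} (hσ : |σ| = 1) : IsMinUpper P xs (ub σ) := by
  refine ⟨isUpper_ub hσ, fun v hv hle => ?_⟩
  have h1 : ∀ n, |v.2.1| ≤ 2 * (v.1 n - 1) + v.2.2.2 ∧ |v.2.2.1| ≤ (v.1 n - 1) + v.2.2.2 := by
    intro n
    have h2 := hv (n + 1) n
    change |v.2.1 - 0| ≤ 2 * (v.1 n - ones (n + 1) n) + (v.2.2.2 - 0) ∧
      |v.2.2.1 - 0| ≤ (v.1 n - ones (n + 1) n) + (v.2.2.2 - 0) at h2
    rw [ones_apply, if_pos (Nat.lt_succ_self n), sub_zero, sub_zero, sub_zero] at h2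
    exact h2
  have h3 : |v.2.1| ≤ -2 + v.2.2.2 := by
    have h4 : Tendsto (fun n => 2 * (v.1 n - 1) + v.2.2.2) atTop (𝓝 (2 * (0 - 1) + v.2.2.2)) :=
      (((tendsto_coord v.1).sub_const 1).const_mul 2).add_const _
    have h5 : (2 : ℝ) * (0 - 1) + v.2.2.2 = -2 + v.2.2.2 := by ring
    rw [h5] at h4
    exact ge_of_tendsto' h4 fun n => (h1 n).1
  have h4 := P_lim hle
  change |0 - v.2.1| ≤ 2 - v.2.2.2 ∧ |σ - v.2.2.1| ≤ 2 - v.2.2.2 at h4
  have a1 := abs_nonneg v.2.1
  have a2 := abs_nonneg (0 - v.2.1)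
  have e3 : v.2.2.2 = 2 := by linarith [h4.1]
  have e1 : v.2.1 = 0 := abs_eq_zero.mp (le_antisymm (by linarith) a1)
  have e2 : v.2.2.1 = σ := by
    have : |σ - v.2.2.1| = 0 := le_antisymm (by linarith [h4.2]) (abs_nonneg _)
    linarith [abs_eq_zero.mp this]
  have e0 : v.1 = 0 := by
    ext n
    have h5 := (h1 n).2
    have h6 := (hle n).1
    change |0 - v.2.1| ≤ 2 * (0 - v.1 n) + (2 - v.2.2.2) at h6
    rw [e2, e3, hσ] at h5
    rw [e1, e3] at h6
    simp at h6
    change v.1 n = 0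
    linarith
  exact Prod.ext e0 (Prod.ext e1 (Prod.ext e2 e3))

/-- There are an ordered Banach space with (closed) normal cone and an increasing sequence in it
that has a minimal upper bound but no supremum. -/
theorem result : ∃ (X : Type) (_ : NormedAddCommGroup X) (_ : NormedSpace ℝ X) (P : Set X)
    (x : ℕ → X), CompleteSpace X ∧ IsClosedCone P ∧ IsNormal P ∧ Increasing P x ∧
      (∃ u, IsMinUpper P x u) ∧ ¬ ∃ s, IsSupr P x s := by
  refine ⟨Y, inferInstance, inferInstance, P, xs, inferInstance, isClosedCone_P, isNormal_P,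
    increasing_xs, ⟨ub 1, isMinUpper_ub (by norm_num)⟩, ?_⟩
  rintro ⟨s, hs, hsl⟩
  have h1 := (isMinUpper_ub (σ := 1) (by norm_num)).2 s hs (hsl _ (isUpper_ub (by norm_num)))
  have h2 := (isMinUpper_ub (σ := -1) (by norm_num)).2 s hs (hsl _ (isUpper_ub (by norm_num)))
  have h3 : ub 1 = ub (-1) := h1.symm.trans h2
  have h4 : (1 : ℝ) = -1 := congrArg (fun x : Y => x.2.2.1) h3
  norm_num at h4

end Pool.Agent.Results.MP_c65f17_an.MinimalUpper
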